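import Pool.Agent.Helper19.Sign.ArithCore

/-!
# Project AA, part (D): definitions

`IsTr q g h`: `h` is the trace polynomial of a Weil polynomial of degree `2 g`: monic integral of
degree `g` with all its complex roots real in `[-2 √q, 2 √q]`.
-/

open Polynomial

namespace Pool.Agent.Helper19.AA

/-- Trace polynomials. -/
def IsTr (q g : ℕ) (h : ℤ[X]) : Prop :=
  h.Monic ∧ h.natDegree = g ∧ ∀ z : ℂ, aeval z h = 0 → z.im = 0 ∧ |z.re| ≤ 2 * Real.sqrt q

/-- The set of the trace polynomials. -/
def Tr (q g : ℕ) : Set ℤ[X] := {h | IsTr q g h}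

/-- The polynomial without its coefficients of degree `< m` (the coefficients of degree `≥ m`). -/
noncomputable def top (m : ℕ) (h : ℤ[X]) : ℤ[X] :=
  ∑ j ∈ Finset.range (h.natDegree + 1), if m ≤ j then C (h.coeff j) * X ^ j else 0

/-- The tops of the trace polynomials: `top m h` for `h ∈ Tr q g` determines and is determined by the
first `g - m` coefficients below the leading one. -/
def Tops (q g m : ℕ) : Set ℤ[X] := top m '' Tr q g

/-- The integers `t` with `H + t` a trace polynomial. -/
def fib (q g : ℕ) (H : ℤ[X]) : Set ℤ := {t | IsTr q g (H + C t)}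

/-- All multiplicative relations between the roots of `T ^ g h(T + q / T)` are trivial, and this
polynomial is irreducible. -/
def Good (q : ℕ) (h : ℤ[X]) : Prop :=
  Irreducible (Sign.qw q h) ∧ ∀ (L : Type) [Field L] [NumberField L] [IsGalois ℚ L],
    ((Sign.qw q h).map (algebraMap ℚ L)).Splits → ∀ (n : L → ℤ) (N : ℕ) (e : ℚ), N ≠ 0 →
    (∏ β ∈ Disc.roots (Sign.qw q h) L, β ^ n β) ^ N = algebraMap ℚ L e →
    ∀ β ∈ Disc.roots (Sign.qw q h) L, n β = n ((q : L) / β)

end Pool.Agent.Helper19.AA
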